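import Pool.Agent.helper69.GR2B.Spec

set_option autoImplicit false

open Complex Metric Set Filter Topology MeasureTheory
open MPS (om)
open PPS (pre TT fd)
open XPS (Df er dens tau)
open Pool.Agent.helper16.Multibrot

noncomputable section

namespace GR

theorem BHP_schwarz (k : ℂ → ℂ) (r g : ℝ) (hg : 0 < g)
    (hk : DifferentiableOn ℂ k (ball 0 r)) (h0 : k 0 = 0)
    (hre : ∀ z ∈ ball (0 : ℂ) r, (k z).re ≤ g) (z : ℂ) (hz : z ∈ ball (0 : ℂ) r) :
    ‖k z‖ ≤ ‖z‖ / r * ‖2 * (g : ℂ) - k z‖ := by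
  have hne : ∀ x ∈ ball (0 : ℂ) r, 2 * (g : ℂ) - k x ≠ 0 := by
    intro x hx h
    have h1 : k x = 2 * (g : ℂ) := (sub_eq_zero.1 h).symm
    have h2 := hre x hx
    rw [h1] at h2
    simp at h2
    linarith
  have hle : ∀ x ∈ ball (0 : ℂ) r, ‖k x‖ ≤ ‖2 * (g : ℂ) - k x‖ := by
    intro x hx
    rw [← sq_le_sq₀ (norm_nonneg _) (norm_nonneg _), Complex.sq_norm, Complex.sq_norm,
      normSq_apply, normSq_apply]
    simp only [sub_re, mul_re, re_ofNat, ofReal_re, im_ofNat, ofReal_im, sub_im, mul_im]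
    have := hre x hx
    nlinarith
  have hd : DifferentiableOn ℂ (fun x => k x / (2 * (g : ℂ) - k x)) (ball 0 r) :=
    hk.div (hk.const_sub _) hne
  have hm : MapsTo (fun x => k x / (2 * (g : ℂ) - k x)) (ball 0 r)
      (closedBall ((fun x => k x / (2 * (g : ℂ) - k x)) 0) 1) := by
    intro x hx
    simp only [h0, zero_div, mem_closedBall_zero_iff]
    rw [norm_div]
    exact div_le_one_of_le₀ (hle x hx) (norm_nonneg _)
  have h1 := dist_le_div_mul_dist_of_mapsTo_ball hd hm hz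
  simp only [h0, zero_div, dist_zero_right, norm_div] at h1
  have hpos : 0 < ‖2 * (g : ℂ) - k z‖ := norm_pos_iff.2 (hne z hz)
  rw [div_le_iff₀ hpos] at h1
  calc ‖k z‖ ≤ 1 / r * ‖z‖ * ‖2 * (g : ℂ) - k z‖ := h1
    _ = ‖z‖ / r * ‖2 * (g : ℂ) - k z‖ := by ring

theorem BHP_re (g t : ℝ) (a : ℂ) (hg : 0 < g) (ht0 : 0 ≤ t) (ht1 : t < 1)
    (h : ‖a‖ ≤ t * ‖2 * (g : ℂ) - a‖) : a.re ≤ 2 * t * g / (1 + t) := by
  have h1 : ‖a‖ ^ 2 ≤ t ^ 2 * ‖2 * (g : ℂ) - a‖ ^ 2 := by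
    rw [← mul_pow]
    exact pow_le_pow_left₀ (norm_nonneg _) h 2
  rw [Complex.sq_norm, Complex.sq_norm, normSq_apply, normSq_apply] at h1
  simp only [sub_re, mul_re, re_ofNat, ofReal_re, im_ofNat, ofReal_im, sub_im, mul_im] at h1
  rw [le_div_iff₀ (by linarith)]
  by_contra hc
  push Not at hc
  have h2 : 0 < a.re := by
    by_contra h3
    push Not at h3
    have : 0 ≤ 2 * t * g := by positivity
    nlinarith
  have h3 : t ^ 2 < 1 := by nlinarith
  nlinarith [mul_nonneg (sub_nonneg.2 h3.le) (mul_self_nonneg a.im),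
    mul_pos (sub_pos.2 hc) h2, mul_nonneg ht0 hg.le, mul_nonneg (mul_nonneg ht0 hg.le) (sub_nonneg.2 ht1.le)]

theorem BHP : BHP_stmt := by
  intro k r g w hr hg hk hkw h0 hre hw hwg
  have hder : HasDerivAt (fun z : ℂ => k (z * w)) (deriv k w * w) ((1 : ℝ) : ℂ) := by
    have e : ((1 : ℝ) : ℂ) * w = w := by simp
    have h1 : HasDerivAt k (deriv k w) (((1 : ℝ) : ℂ) * w) := by rw [e]; exact hkw.hasDerivAt
    have h2 : HasDerivAt (fun z : ℂ => z * w) w ((1 : ℝ) : ℂ) := hasDerivAt_mul_const w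
    exact HasDerivAt.comp ((1 : ℝ) : ℂ) (h₂ := k) (h := fun z => z * w) h1 h2
  have hreal := hder.real_of_complex
  have hsl := hasDerivAt_iff_tendsto_slope.1 hreal
  have hsl2 : Tendsto (slope (fun x : ℝ => (k ((x : ℂ) * w)).re) 1) (𝓝[<] 1)
      (𝓝 (deriv k w * w).re) :=
    hsl.mono_left (nhdsWithin_mono _ fun x hx => ne_of_lt hx)
  have hev : ∀ᶠ t : ℝ in 𝓝[<] 1, g / 2 ≤ slope (fun x : ℝ => (k ((x : ℂ) * w)).re) 1 t := by
    filter_upwards [Ioo_mem_nhdsLT (show (0 : ℝ) < 1 by norm_num)] with t ht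
    have hz : ‖(t : ℂ) * w‖ = t * r := by
      rw [norm_mul, hw, Complex.norm_real, Real.norm_eq_abs, abs_of_pos ht.1]
    have hzb : (t : ℂ) * w ∈ ball (0 : ℂ) r := by
      rw [mem_ball_zero_iff, hz]
      nlinarith [ht.1, ht.2]
    have h1 := BHP_schwarz k r g hg hk h0 hre _ hzb
    rw [hz, mul_div_cancel_right₀ _ hr.ne'] at h1
    have h2 := BHP_re g t _ hg ht.1.le ht.2 h1
    rw [slope_def_field]
    have e1 : (k (((1 : ℝ) : ℂ) * w)).re = g := by simp [hwg]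
    rw [e1]
    have h3 : 0 < 1 - t := by linarith [ht.2]
    have h4 : ((k ((t : ℂ) * w)).re - g) / (t - 1) = (g - (k ((t : ℂ) * w)).re) / (1 - t) := by
      rw [← neg_div_neg_eq]
      ring
    rw [h4, le_div_iff₀ h3]
    rw [le_div_iff₀ (by linarith [ht.1])] at h2
    by_contra hc
    push Not at hc
    nlinarith [ht.1, ht.2, mul_pos (mul_pos hg h3) h3]
  have h5 := ge_of_tendsto hsl2 hev
  have h6 : (deriv k w * w).re ≤ ‖deriv k w‖ * r := by
    calc (deriv k w * w).re ≤ ‖deriv k w * w‖ := re_le_norm _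
      _ = ‖deriv k w‖ * r := by rw [norm_mul, hw]
  rw [div_le_iff₀ (by positivity)]
  linarith

end GR
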